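import Pool.Agent.Y262.EX.Stm

/-!
# Project EX: geodesics exist for a uniform time (helper700)
-/

set_option autoImplicit false

open Set Filter Topology MeasureTheory
open scoped ContDiff ComplexConjugate Real

noncomputable section

namespace Pool.Agent.Y700.EX

open Pool.Agent.Y262.EG Pool.Agent.Y262.EX

theorem crv_mono {O : Set Y} {X : Y → Y} {ε ε' : ℝ} {p : Y} {β : ℝ → Y} (h : Crv O X ε p β)
    (hε : ε' ≤ ε) : Crv O X ε' p β :=
  ⟨h.1, fun t ht => h.2 t ⟨by linarith [ht.1], by linarith [ht.2]⟩⟩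

theorem isOpen_YO {Ω : Set ℂ} (hΩ : IsOpen Ω) : IsOpen (YO Ω) := hΩ.preimage continuous_fst

/-- uniform time on a compact set -/
theorem unif_compact (hL : StLFl) {O : Set Y} {X : Y → Y} (hO : IsOpen O)
    (hX : ContDiffOn ℝ ∞ X O) {Q : Set Y} (hQ : IsCompact Q) (hQO : Q ⊆ O) :
    ∃ ε : ℝ, 0 < ε ∧ ∀ p ∈ Q, ∃ β, Crv O X ε p β := by
  refine hQ.induction_on (p := fun s => ∃ ε : ℝ, 0 < ε ∧ ∀ p ∈ s, ∃ β, Crv O X ε p β)
    ⟨1, one_pos, fun p hp => absurd hp (notMem_empty p)⟩ ?_ ?_ ?_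
  · rintro s t hst ⟨ε, hε, h⟩
    exact ⟨ε, hε, fun p hp => h p (hst hp)⟩
  · rintro s t ⟨ε, hε, h⟩ ⟨ε', hε', h'⟩
    refine ⟨min ε ε', lt_min hε hε', fun p hp => ?_⟩
    rcases hp with hp | hp
    · obtain ⟨β, hβ⟩ := h p hp
      exact ⟨β, crv_mono hβ (min_le_left _ _)⟩
    · obtain ⟨β, hβ⟩ := h' p hp
      exact ⟨β, crv_mono hβ (min_le_right _ _)⟩
  · intro p hp
    obtain ⟨ε, r, α, hε, hr, -, -, h⟩ := hL O X hO hX p (hQO hp)
    refine ⟨Metric.ball p r, mem_nhdsWithin_of_mem_nhds (Metric.ball_mem_nhds p hr), ε, hε, ?_⟩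
    intro y hy
    refine ⟨fun τ => α (τ, y), (h 0 ⟨by linarith, hε⟩ y hy).1, fun t ht => ?_⟩
    exact ⟨(h t ht y hy).2.1, (h t ht y hy).2.2⟩

theorem XX_shift (φ : ℂ → ℝ) (y : Y) (k : ℤ) :
    XX φ (y + ((0 : ℂ), (k : ℝ) * (2 * π))) = XX φ y := by
  obtain ⟨z, θ⟩ := y
  simp [XX, Real.cos_add_int_mul_two_pi, Real.sin_add_int_mul_two_pi]

/-- a curve through an angle which is congruent modulo `2 π` -/
theorem crv_shift {Ω : Set ℂ} {φ : ℂ → ℝ} {ε : ℝ} {p : Y} {β : ℝ → Y}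
    (h : Crv (YO Ω) (XX φ) ε p β) (k : ℤ) :
    Crv (YO Ω) (XX φ) ε (p + ((0 : ℂ), (k : ℝ) * (2 * π)))
      (fun t => β t + ((0 : ℂ), (k : ℝ) * (2 * π))) := by
  refine ⟨by simp only [h.1], fun t ht => ⟨?_, ?_⟩⟩
  · have h1 := (h.2 t ht).1
    simpa [YO] using h1
  · rw [XX_shift]
    exact ((h.2 t ht).2).add_const _

theorem log_lift {ε : ℝ} (hε : 0 < ε) {u u' : ℝ → ℂ} (hu : ∀ t ∈ Ioo (-ε) ε, u t ≠ 0)
    (hd : ∀ t ∈ Ioo (-ε) ε, HasDerivAt u (u' t) t) (hc : ContinuousOn u' (Ioo (-ε) ε)) :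
    ∃ l : ℝ → ℂ, l 0 = Complex.log (u 0) ∧ ContinuousOn l (Ioo (-ε) ε) ∧
      ∀ t ∈ Ioo (-ε) ε, Complex.exp (l t) = u t := by
  have h0 : (0 : ℝ) ∈ Ioo (-ε) ε := ⟨by linarith, hε⟩
  have huc : ContinuousOn u (Ioo (-ε) ε) := fun t ht => (hd t ht).continuousAt.continuousWithinAt
  have hψ : ContinuousOn (fun s => u' s / u s) (Ioo (-ε) ε) := hc.div huc hu
  have hder : ∀ t ∈ Ioo (-ε) ε, HasDerivAt
      (fun t => Complex.log (u 0) + ∫ s in (0 : ℝ)..t, u' s / u s) (u' t / u t) t := by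
    intro t ht
    have hsub : uIcc 0 t ⊆ Ioo (-ε) ε := (ordConnected_Ioo).uIcc_subset h0 ht
    refine HasDerivAt.const_add _ ?_
    exact intervalIntegral.integral_hasDerivAt_right (hψ.mono hsub).intervalIntegrable
      (hψ.stronglyMeasurableAtFilter isOpen_Ioo t ht) (hψ.continuousAt (isOpen_Ioo.mem_nhds ht))
  refine ⟨fun t => Complex.log (u 0) + ∫ s in (0 : ℝ)..t, u' s / u s, by simp,
    fun t ht => (hder t ht).continuousAt.continuousWithinAt, ?_⟩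
  intro t ht
  set l : ℝ → ℂ := fun t => Complex.log (u 0) + ∫ s in (0 : ℝ)..t, u' s / u s with hl
  have hE : ∀ t ∈ Ioo (-ε) ε, HasDerivAt (fun t => u t * Complex.exp (-(l t))) 0 t := by
    intro t ht
    have h1 := (hd t ht).mul ((hder t ht).neg.cexp)
    have e : u t * (u' t / u t) = u' t := by
      have h2 := hu t ht
      field_simp
    have e2 : (0 : ℂ) = u' t * Complex.exp (-(l t)) + u t * (Complex.exp (-(l t)) * -(u' t / u t)) := by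
      linear_combination Complex.exp (-(l t)) * e
    rw [e2]
    exact h1
  have hconst := isOpen_Ioo.is_const_of_deriv_eq_zero (isPreconnected_Ioo)
    (fun t ht => (hE t ht).differentiableAt.differentiableWithinAt)
    (fun t ht => (hE t ht).deriv) ht h0
  have hl0 : l 0 = Complex.log (u 0) := by simp [hl]
  have h3 : u t * Complex.exp (-(l t)) = 1 := by
    rw [hconst, hl0, Complex.exp_neg, Complex.exp_log (hu 0 h0), mul_inv_cancel₀ (hu 0 h0)]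
  rw [Complex.exp_neg] at h3
  have h4 := Complex.exp_ne_zero (l t)
  field_simp at h3
  exact h3.symm

/-- transport of a curve by a holomorphic isometry -/
theorem transport (hF : StFrame) (hG : StGerm) {Ω : Set ℂ} {φ : ℂ → ℝ} (hΩ : IsOpen Ω)
    (hφ : ContDiffOn ℝ ∞ φ Ω) {f : ℂ → ℂ} (hf : DifferentiableOn ℂ f Ω)
    (hm : ∀ ζ ∈ Ω, f ζ ∈ Ω ∧ deriv f ζ ≠ 0 ∧ φ (f ζ) + Real.log ‖deriv f ζ‖ = φ ζ)
    {ε : ℝ} (hε : 0 < ε) {w : ℂ} (hw : w ∈ Ω) (θ : ℝ) {β : ℝ → Y}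
    (hβ : Crv (YO Ω) (XX φ) ε (w, θ - Complex.arg (deriv f w)) β) :
    ∃ β', Crv (YO Ω) (XX φ) ε (f w, θ) β' := by
  have h0 : (0 : ℝ) ∈ Ioo (-ε) ε := ⟨by linarith, hε⟩
  have hXc : ContinuousOn (XX φ) (YO Ω) := (hF Ω φ hΩ hφ).1.continuousOn
  have hf1 : DifferentiableOn ℂ (deriv f) Ω := hf.deriv hΩ
  have hf2 : ContinuousOn (deriv (deriv f)) Ω := (hf1.deriv hΩ).continuousOn
  have hβc : ContinuousOn β (Ioo (-ε) ε) :=
    fun t ht => (hβ.2 t ht).2.continuousAt.continuousWithinAt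
  have hwd : ∀ t ∈ Ioo (-ε) ε, HasDerivAt (fun t => (β t).1) (XX φ (β t)).1 t := fun t ht =>
    (hasFDerivAt_fst (𝕜 := ℝ) (p := β t)).comp_hasDerivAt t (hβ.2 t ht).2
  have hwΩ : ∀ t ∈ Ioo (-ε) ε, (β t).1 ∈ Ω := fun t ht => (hβ.2 t ht).1
  have hwc : ContinuousOn (fun t => (β t).1) (Ioo (-ε) ε) := continuous_fst.comp_continuousOn hβc
  obtain ⟨l, hl0, hlc, hle⟩ := log_lift hε (u := fun t => deriv f (β t).1)
    (u' := fun t => deriv (deriv f) (β t).1 * (XX φ (β t)).1)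
    (fun t ht => (hm _ (hwΩ t ht)).2.1)
    (fun t ht => by
      have h1 : HasDerivAt (deriv f) (deriv (deriv f) (β t).1) (β t).1 :=
        (hf1.differentiableAt (hΩ.mem_nhds (hwΩ t ht))).hasDerivAt
      exact HasDerivAt.comp t h1 (hwd t ht))
    ((hf2.comp hwc hwΩ).mul (continuous_fst.comp_continuousOn (hXc.comp hβc (fun t ht => (hβ.2 t ht).1))))
  refine ⟨fun t => (f (β t).1, (β t).2 + (l t).im), ?_, ?_⟩
  · have h1 : β 0 = (w, θ - Complex.arg (deriv f w)) := hβ.1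
    simp only [hl0, h1, Complex.log_im]
    ext1
    · rfl
    · simp
  intro t0 ht0
  refine ⟨(hm _ (hwΩ t0 ht0)).1, ?_⟩
  obtain ⟨r, hr, hrΩ⟩ := Metric.isOpen_iff.mp hΩ _ (hwΩ t0 ht0)
  have hexp : ∀ t ∈ Ioo (-ε) ε, Complex.exp (((l t).im : ℝ) * Complex.I) *
      ((‖deriv f (β t).1‖ : ℝ) : ℂ) = deriv f (β t).1 := by
    intro t ht
    have h1 : Complex.exp (l t) = deriv f (β t).1 := hle t ht
    rw [← h1, Complex.norm_exp, Complex.ofReal_exp, ← Complex.exp_add]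
    congr 1
    apply Complex.ext <;> simp
  obtain ⟨r', τ, hr', hrr', hτ0, hτe, hτs, hτX⟩ := (hG Ω φ (β t0).1 r f hΩ hφ hr hrΩ
    (hf.mono hrΩ) (fun ζ hζ => hm ζ (hrΩ hζ))).2 ((l t0).im) (hexp t0 ht0)
  set A : Y → Y := fun y => (f y.1, y.2 + τ y.1) with hA
  have hmem : β t0 ∈ {y : Y | y.1 ∈ Metric.ball (β t0).1 r'} := Metric.mem_ball_self hr'
  have hopen : IsOpen {y : Y | y.1 ∈ Metric.ball (β t0).1 r'} :=
    Metric.isOpen_ball.preimage continuous_fst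
  have hAd : HasFDerivAt A (fderiv ℝ A (β t0)) (β t0) :=
    ((hτs.contDiffAt (hopen.mem_nhds hmem)).differentiableAt (by simp)).hasFDerivAt
  have hAβ : HasDerivAt (fun t => A (β t)) (XX φ (A (β t0))) t0 := by
    have h1 := hAd.comp_hasDerivAt t0 (hβ.2 t0 ht0).2
    rw [(hτX (β t0) (Metric.mem_ball_self hr')).1] at h1
    exact h1
  have hAt0 : A (β t0) = (f (β t0).1, (β t0).2 + (l t0).im) := by
    simp only [hA, hτ0]
  rw [hAt0] at hAβ
  refine hAβ.congr_of_eventuallyEq ?_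
  -- the two lifts agree near `t0`
  have hτc : ContinuousAt τ (β t0).1 := by
    have h1 : ContinuousAt A ((β t0).1, 0) :=
      (hτs.contDiffAt (hopen.mem_nhds (show ((β t0).1, (0 : ℝ)) ∈ _ from
        Metric.mem_ball_self hr'))).continuousAt
    have h2 : ContinuousAt (fun ζ : ℂ => (A (ζ, 0)).2) (β t0).1 :=
      ContinuousAt.comp (f := fun ζ : ℂ => ((ζ, (0 : ℝ)) : Y)) (g := fun y => (A y).2)
        (continuous_snd.continuousAt.comp h1)
        ((continuous_id.prodMk continuous_const).continuousAt)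
    simpa [hA] using h2
  have hlt0 : ContinuousAt l t0 := hlc.continuousAt (isOpen_Ioo.mem_nhds ht0)
  have hwt0 : ContinuousAt (fun t => (β t).1) t0 := hwc.continuousAt (isOpen_Ioo.mem_nhds ht0)
  have hD : ContinuousAt (fun t => (l t).im - τ (β t).1) t0 :=
    (Complex.continuous_im.continuousAt.comp hlt0).sub
      (ContinuousAt.comp (g := τ) (f := fun t => (β t).1) hτc hwt0)
  have hD0 : (l t0).im - τ (β t0).1 = 0 := by rw [hτ0]; ring
  have hsmall : ∀ᶠ t in 𝓝 t0, |(l t).im - τ (β t).1| < 1 := by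
    have h1 : Tendsto (fun t => |(l t).im - τ (β t).1|) (𝓝 t0) (𝓝 |(l t0).im - τ (β t0).1|) :=
      (continuous_abs.continuousAt.comp hD)
    rw [hD0, abs_zero] at h1
    exact h1.eventually (gt_mem_nhds one_pos)
  have hball : ∀ᶠ t in 𝓝 t0, (β t).1 ∈ Metric.ball (β t0).1 r' :=
    hwt0 (Metric.ball_mem_nhds _ hr')
  filter_upwards [hsmall, hball, isOpen_Ioo.mem_nhds ht0] with t h1 h2 h3
  have h4 := hexp t h3
  have h5 := hτe _ h2
  have hne : deriv f (β t).1 ≠ 0 := (hm _ (hwΩ t h3)).2.1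
  have hne' : ((‖deriv f (β t).1‖ : ℝ) : ℂ) ≠ 0 := by
    simpa using hne
  have h6 : Complex.exp (((l t).im : ℝ) * Complex.I) = Complex.exp ((τ (β t).1 : ℝ) * Complex.I) :=
    mul_right_cancel₀ hne' (h4.trans h5.symm)
  rw [Complex.exp_eq_exp_iff_exists_int] at h6
  obtain ⟨n, hn⟩ := h6
  have h7 : (l t).im = τ (β t).1 + n * (2 * π) := by
    have := congrArg Complex.im hn
    simpa using this
  have h8 : n = 0 := by
    by_contra hn0
    have h9 : (1 : ℝ) ≤ |(n : ℝ)| := by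
      rw [← Int.cast_abs]
      exact_mod_cast Int.one_le_abs hn0
    have h10 : |(l t).im - τ (β t).1| = |(n : ℝ)| * (2 * π) := by
      rw [h7, add_sub_cancel_left, abs_mul, abs_of_pos Real.two_pi_pos]
    rw [h10] at h1
    nlinarith [Real.pi_gt_three]
  show ((f (β t).1, (β t).2 + (l t).im) : Y) = A (β t)
  rw [h7, h8]
  simp [hA]

/-- geodesics exist for a uniform time -/
theorem unif : StLFl → StFrame → StGerm → StUnif := by
  intro hL hF hG G _ Ω a φ hA hI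
  obtain ⟨K, hK, hKΩ, hKc⟩ := hA.cpt
  have hQ : IsCompact (K ×ˢ Icc (0 : ℝ) (2 * π)) := hK.prod isCompact_Icc
  have hQO : K ×ˢ Icc (0 : ℝ) (2 * π) ⊆ YO Ω := fun p hp => hKΩ hp.1
  obtain ⟨ε, hε, h1⟩ := unif_compact hL (isOpen_YO hA.opn) (hF Ω φ hA.opn hI.1).1 hQ hQO
  -- all angles
  have h2 : ∀ w ∈ K, ∀ θ : ℝ, ∃ β, Crv (YO Ω) (XX φ) ε (w, θ) β := by
    intro w hw θ
    obtain ⟨k, hk, -⟩ := existsUnique_sub_zsmul_mem_Ico Real.two_pi_pos θ 0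
    simp only [zsmul_eq_mul, zero_add] at hk
    obtain ⟨β, hβ⟩ := h1 (w, θ - k * (2 * π)) ⟨hw, hk.1, hk.2.le⟩
    have h3 := crv_shift hβ k
    have h4 : ((w, θ - k * (2 * π)) : Y) + ((0 : ℂ), (k : ℝ) * (2 * π)) = (w, θ) := by
      ext1 <;> simp
    rw [h4] at h3
    exact ⟨_, h3⟩
  refine ⟨ε, hε, ?_⟩
  rintro ⟨z, θ⟩ hz
  have hzΩ : z ∈ Ω := hz
  obtain ⟨γ, hγ⟩ := hKc z hzΩ
  have hw : a γ z ∈ Ω := hKΩ hγ
  have hfz : a γ⁻¹ (a γ z) = z := by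
    rw [← hA.mul γ⁻¹ γ z hzΩ, inv_mul_cancel, hA.one z hzΩ]
  obtain ⟨β, hβ⟩ := h2 (a γ z) hγ (θ - Complex.arg (deriv (a γ⁻¹) (a γ z)))
  have := transport hF hG hA.opn hI.1 (hA.hol γ⁻¹)
    (fun ζ hζ => ⟨hA.maps _ ζ hζ, (hI.2 γ⁻¹ ζ hζ).1, (hI.2 γ⁻¹ ζ hζ).2⟩) hε hw θ hβ
  rw [hfz] at this
  exact this

end Pool.Agent.Y700.EX
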